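import Pool.Agent.TH994.TM.Lo

set_option autoImplicit false

/-! The action of the group `G_ω`, `ω = 0, 1, 0, 1, ...`, on positive integers: Gray codes and the
Thue-Morse sequence. -/

namespace Pool.Agent.TH994.TM

open Pool.Agent.Results.MP_03d093_al.SphereBall Pool.Agent.H776R2.Grig Pool.Agent.H776R2.Om

/-- the Thue-Morse sequence -/
def tm (n : ℕ) : Bool := if h : n = 0 then false else xor (tm (n / 2)) (decide (n % 2 = 1))
termination_by n
decreasing_by omega

theorem tm_zero : tm 0 = false := by
  rw [tm]
  simp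

theorem tm_two (n : ℕ) : tm (2 * n) = tm n := by
  by_cases h : n = 0
  · subst h
    rfl
  · rw [tm]
    rw [dif_neg (by omega), show 2 * n / 2 = n by omega]
    simp

theorem tm_two_one (n : ℕ) : tm (2 * n + 1) = !tm n := by
  rw [tm]
  rw [dif_neg (by omega), show (2 * n + 1) / 2 = n by omega]
  simp

/-- parity of the level of the hole between `h - 1` and `h` (`true` for even level) -/
def lv (h : ℕ) : Bool := xor (tm (h - 1)) (tm h)

theorem lv_odd (q : ℕ) : lv (2 * q + 1) = true := by
  unfold lv
  rw [show 2 * q + 1 - 1 = 2 * q by omega, tm_two, tm_two_one]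
  cases tm q <;> rfl

theorem lv_even (q : ℕ) (hq : 1 ≤ q) : lv (2 * q) = !lv q := by
  unfold lv
  obtain ⟨p, rfl⟩ : ∃ p, q = p + 1 := ⟨q - 1, by omega⟩
  rw [show 2 * (p + 1) - 1 = 2 * p + 1 by omega, tm_two, tm_two_one, Nat.add_sub_cancel]
  cases tm p <;> cases tm (p + 1) <;> rfl

/-- the Gray code of length `k` -/
def gc : ℕ → ℕ → List Bool
  | 0, _ => []
  | k + 1, m => decide (m % 4 = 0 ∨ m % 4 = 3) :: gc k (m / 2)

/-- whether the letter `b, c, d` crosses a hole of even (`true`) or odd level -/
def ok : V → Bool → Bool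
  | .b, _ => true
  | .c, D => !D
  | .d, D => D

def mvV (x : V) (m : ℕ) : ℕ :=
  if m % 2 = 1 then (if ok x (lv (m + 1)) then m + 1 else m) else (if ok x (lv m) then m - 1 else m)

def mvA (m : ℕ) : ℕ := if m % 2 = 0 then m + 1 else m - 1

def mv : Lt → ℕ → ℕ
  | .A => mvA
  | .B => mvV .b
  | .C => mvV .c
  | .D => mvV .d

def mvW : List Lt → ℕ → ℕ
  | [], m => m
  | s :: w, m => mv s (mvW w m)

theorem mv_near (s : Lt) (m : ℕ) : mv s m ≤ m + 1 ∧ m ≤ mv s m + 1 := by
  cases s <;> simp only [mv, mvA, mvV] <;> constructor <;> split_ifs <;> omega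

theorem mvW_near (w : List Lt) (m : ℕ) : mvW w m ≤ m + w.length ∧ m ≤ mvW w m + w.length := by
  induction w with
  | nil => simp [mvW]
  | cons s w ih =>
    simp only [mvW, List.length_cons]
    have := mv_near s (mvW w m)
    omega

theorem mv_mv (s : Lt) (m : ℕ) (hm : 1 ≤ m) : mv s (mv s m) = m := by
  have key : ∀ x : V, mvV x (mvV x m) = m := by
    intro x
    unfold mvV
    rcases Nat.mod_two_eq_zero_or_one m with h | h
    · rw [if_neg (by omega : ¬ m % 2 = 1)]
      by_cases h1 : ok x (lv m) = true
      · rw [if_pos h1, if_pos (by omega : (m - 1) % 2 = 1), show m - 1 + 1 = m by omega, if_pos h1]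
      · rw [if_neg h1, if_neg (by omega : ¬ m % 2 = 1), if_neg h1]
    · rw [if_pos h]
      by_cases h1 : ok x (lv (m + 1)) = true
      · rw [if_pos h1, if_neg (by omega : ¬ (m + 1) % 2 = 1), if_pos h1, Nat.add_sub_cancel]
      · rw [if_neg h1, if_pos h, if_neg h1]
  cases s
  · simp only [mv, mvA]
    split_ifs <;> omega
  · exact key .b
  · exact key .c
  · exact key .d

/-- exchange `c` and `d` -/
def sw : V → V
  | .b => .b
  | .c => .d
  | .d => .c

theorem sh_sh_om : sh (sh om) = om := by
  funext n
  simp only [sh, om]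
  split_ifs <;> first | rfl | omega

theorem xFun_sh (w : List Bool) : ∀ x : V, xFun x (sh om) w = xFun (sw x) om w := by
  induction w with
  | nil => intro x; rfl
  | cons y w ih =>
    intro x
    have e0 : om 0 = 0 := rfl
    have e1 : (sh om) 0 = 1 := rfl
    cases y
    · simp only [xFun, e0, e1]
      cases x <;> rfl
    · simp only [xFun]
      rw [sh_sh_om, ih (sw x)]
      cases x <;> rfl

theorem ok_sw (x : V) (D : Bool) : ok (sw x) D = ok x (!D) := by
  cases x <;> simp [ok, sw]

theorem gc_mvA (k m : ℕ) : gc k (mvA m) = aFun (gc k m) := by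
  cases k with
  | zero => rfl
  | succ k =>
    unfold mvA
    split_ifs with h
    · simp only [gc, aFun]
      rw [show (m + 1) / 2 = m / 2 by omega]
      congr 1
      rcases (by omega : m % 4 = 0 ∨ m % 4 = 2) with h1 | h1
      · simp [h1, show (m + 1) % 4 = 1 by omega]
      · simp [h1, show (m + 1) % 4 = 3 by omega]
    · simp only [gc, aFun]
      rw [show (m - 1) / 2 = m / 2 by omega]
      congr 1
      rcases (by omega : m % 4 = 1 ∨ m % 4 = 3) with h1 | h1
      · simp [h1, show (m - 1) % 4 = 0 by omega]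
      · simp [h1, show (m - 1) % 4 = 2 by omega]

theorem gc_mvV (k : ℕ) : ∀ (x : V) (m : ℕ), 1 ≤ m → gc k (mvV x m) = xFun x om (gc k m) := by
  induction k with
  | zero => intro x m _; rfl
  | succ k ih =>
    intro x m hm
    have e0 : om 0 = 0 := rfl
    rcases (by omega : m % 4 = 0 ∨ m % 4 = 1 ∨ m % 4 = 2 ∨ m % 4 = 3) with h | h | h | h
    · -- even, deep hole
      obtain ⟨q, rfl⟩ : ∃ q, m = 2 * (2 * q) := ⟨m / 4, by omega⟩
      have hih := ih (sw x) (2 * q) (by omega)
      have hl : lv (2 * (2 * q)) = !lv (2 * q) := lv_even _ (by omega)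
      unfold mvV at hih ⊢
      rw [if_neg (by omega : ¬ (2 * q) % 2 = 1)] at hih
      rw [if_neg (by omega : ¬ (2 * (2 * q)) % 2 = 1), hl]
      rw [ok_sw] at hih
      have hR : xFun x om (gc (k + 1) (2 * (2 * q))) = true :: xFun (sw x) om (gc k (2 * q)) := by
        simp only [gc, h, true_or, decide_true, xFun]
        rw [xFun_sh, show 2 * (2 * q) / 2 = 2 * q by omega]
      rw [hR, ← hih]
      split_ifs with h1
      · simp only [gc]
        rw [show (2 * (2 * q) - 1) / 2 = 2 * q - 1 by omega]
        congr 1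
        simp [show (2 * (2 * q) - 1) % 4 = 3 by omega]
      · simp only [gc]
        rw [show 2 * (2 * q) / 2 = 2 * q by omega]
        congr 1
        simp [h]
    · -- odd, hole of level 1
      obtain ⟨q, rfl⟩ : ∃ q, m = 4 * q + 1 := ⟨m / 4, by omega⟩
      have hl : lv (4 * q + 1 + 1) = false := by
        rw [show 4 * q + 1 + 1 = 2 * (2 * q + 1) by ring, lv_even _ (by omega), lv_odd]
        rfl
      unfold mvV
      rw [if_pos (by omega : (4 * q + 1) % 2 = 1), hl]
      have hR : xFun x om (gc (k + 1) (4 * q + 1)) =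
          false :: (if col 0 x then aFun (gc k (2 * q)) else gc k (2 * q)) := by
        simp only [gc, h, xFun, e0]
        rw [show (4 * q + 1) / 2 = 2 * q by omega]
        simp [xFun, e0]
      rw [hR]
      have hok : ok x false = col 0 x := by cases x <;> rfl
      rw [hok]
      split_ifs with h1
      · simp only [gc]
        rw [show (4 * q + 1 + 1) / 2 = 2 * q + 1 by omega, ← gc_mvA]
        congr 1
        · simp [show (4 * q + 1 + 1) % 4 = 2 by omega]
        · unfold mvA
          rw [if_pos (by omega)]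
      · simp only [gc]
        rw [show (4 * q + 1) / 2 = 2 * q by omega]
        congr 1
        simp [h]
    · -- even, hole of level 1
      obtain ⟨q, rfl⟩ : ∃ q, m = 4 * q + 2 := ⟨m / 4, by omega⟩
      have hl : lv (4 * q + 2) = false := by
        rw [show 4 * q + 2 = 2 * (2 * q + 1) by ring, lv_even _ (by omega), lv_odd]
        rfl
      unfold mvV
      rw [if_neg (by omega : ¬ (4 * q + 2) % 2 = 1), hl]
      have hR : xFun x om (gc (k + 1) (4 * q + 2)) =
          false :: (if col 0 x then aFun (gc k (2 * q + 1)) else gc k (2 * q + 1)) := by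
        simp only [gc, h, xFun, e0]
        rw [show (4 * q + 2) / 2 = 2 * q + 1 by omega]
        simp [xFun, e0]
      rw [hR]
      have hok : ok x false = col 0 x := by cases x <;> rfl
      rw [hok]
      split_ifs with h1
      · simp only [gc]
        rw [show (4 * q + 2 - 1) / 2 = 2 * q by omega, ← gc_mvA]
        congr 1
        · simp [show (4 * q + 2 - 1) % 4 = 1 by omega]
        · unfold mvA
          rw [if_neg (by omega), Nat.add_sub_cancel]
      · simp only [gc]
        rw [show (4 * q + 2) / 2 = 2 * q + 1 by omega]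
        congr 1
        simp [h]
    · -- odd, deep hole
      obtain ⟨q, rfl⟩ : ∃ q, m = 2 * (2 * q + 1) + 1 := ⟨m / 4, by omega⟩
      have hih := ih (sw x) (2 * q + 1) (by omega)
      have hl : lv (2 * (2 * q + 1) + 1 + 1) = !lv (2 * q + 1 + 1) := by
        rw [show 2 * (2 * q + 1) + 1 + 1 = 2 * (2 * q + 1 + 1) by ring]
        exact lv_even _ (by omega)
      unfold mvV at hih ⊢
      rw [if_pos (by omega : (2 * q + 1) % 2 = 1)] at hih
      rw [if_pos (by omega : (2 * (2 * q + 1) + 1) % 2 = 1), hl]
      rw [ok_sw] at hih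
      have hR : xFun x om (gc (k + 1) (2 * (2 * q + 1) + 1)) =
          true :: xFun (sw x) om (gc k (2 * q + 1)) := by
        simp only [gc, h, or_true, decide_true, xFun]
        rw [xFun_sh, show (2 * (2 * q + 1) + 1) / 2 = 2 * q + 1 by omega]
      rw [hR, ← hih]
      split_ifs with h1
      · simp only [gc]
        rw [show (2 * (2 * q + 1) + 1 + 1) / 2 = 2 * q + 1 + 1 by omega]
        congr 1
        simp [show (2 * (2 * q + 1) + 1 + 1) % 4 = 0 by omega]
      · simp only [gc]
        rw [show (2 * (2 * q + 1) + 1) / 2 = 2 * q + 1 by omega]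
        congr 1
        simp [h]

theorem gc_mv (k : ℕ) (s : Lt) (m : ℕ) (hm : 1 ≤ m) : gc k (mv s m) = gno om s (gc k m) := by
  cases s
  · exact gc_mvA k m
  · exact gc_mvV k .b m hm
  · exact gc_mvV k .c m hm
  · exact gc_mvV k .d m hm

theorem gc_mvW (k : ℕ) (w : List Lt) (m : ℕ) (hm : w.length < m) :
    gc k (mvW w m) = evo om w (gc k m) := by
  induction w with
  | nil => rfl
  | cons s w ih =>
    rw [List.length_cons] at hm
    have h1 := mvW_near w m
    simp only [mvW]
    rw [gc_mv k s _ (by omega), ih (by omega), evo_cons]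
    rfl

theorem gc_inj (k : ℕ) : ∀ m m' : ℕ, m < 2 ^ k → m' < 2 ^ k → gc k m = gc k m' → m = m' := by
  induction k with
  | zero =>
    intro m m' h h' _
    simp at h h'
    omega
  | succ k ih =>
    intro m m' h h' he
    simp only [gc, List.cons.injEq] at he
    rw [pow_succ] at h h'
    have h1 := ih (m / 2) (m' / 2) (by omega) (by omega) he.2
    have h2 := he.1
    rw [decide_eq_decide] at h2
    omega

theorem gc_surj (u : List Bool) : ∀ B : ℕ, ∃ m, B ≤ m ∧ gc u.length m = u := by
  induction u with
  | nil => intro B; exact ⟨B, le_rfl, rfl⟩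
  | cons y u ih =>
    intro B
    obtain ⟨m, hm, hg⟩ := ih B
    rcases Nat.mod_two_eq_zero_or_one m with h | h
    · cases y
      · refine ⟨2 * m + 1, by omega, ?_⟩
        simp only [List.length_cons, gc]
        rw [show (2 * m + 1) / 2 = m by omega, hg]
        congr 1
        simp [show (2 * m + 1) % 4 = 1 by omega]
      · refine ⟨2 * m, by omega, ?_⟩
        simp only [List.length_cons, gc]
        rw [show (2 * m) / 2 = m by omega, hg]
        congr 1
        simp [show (2 * m) % 4 = 0 by omega]
    · cases y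
      · refine ⟨2 * m, by omega, ?_⟩
        simp only [List.length_cons, gc]
        rw [show (2 * m) / 2 = m by omega, hg]
        congr 1
        simp [show (2 * m) % 4 = 2 by omega]
      · refine ⟨2 * m + 1, by omega, ?_⟩
        simp only [List.length_cons, gc]
        rw [show (2 * m + 1) / 2 = m by omega, hg]
        congr 1
        simp [show (2 * m + 1) % 4 = 3 by omega]

/-- the Thue-Morse sequence has no period -/
theorem lv_aper (d : ℕ) : (∀ h, 1 ≤ h → lv (h + d) = lv h) → d = 0 := by
  induction d using Nat.strong_induction_on with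
  | _ d ih =>
    intro hp
    by_contra hd
    rcases Nat.mod_two_eq_zero_or_one d with h | h
    · obtain ⟨e, rfl⟩ : ∃ e, d = 2 * e := ⟨d / 2, by omega⟩
      have := ih e (by omega) (by
        intro q hq
        have h1 := hp (2 * q) (by omega)
        rw [show 2 * q + 2 * e = 2 * (q + e) by ring, lv_even _ (by omega), lv_even _ hq] at h1
        simpa using h1)
      omega
    · obtain ⟨e, rfl⟩ : ∃ e, d = 2 * e + 1 := ⟨d / 2, by omega⟩
      rcases Nat.mod_two_eq_zero_or_one e with h2 | h2
      · -- h = 1 : 2 e + 2 = 2 (e + 1), e + 1 odd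
        have h1 := hp 1 le_rfl
        obtain ⟨f, rfl⟩ : ∃ f, e = 2 * f := ⟨e / 2, by omega⟩
        rw [show 1 + (2 * (2 * f) + 1) = 2 * (2 * f + 1) by ring, lv_even _ (by omega), lv_odd,
          show (1 : ℕ) = 2 * 0 + 1 by norm_num, lv_odd] at h1
        simp at h1
      · have h1 := hp 3 (by norm_num)
        obtain ⟨f, rfl⟩ : ∃ f, e = 2 * f + 1 := ⟨e / 2, by omega⟩
        rw [show 3 + (2 * (2 * f + 1) + 1) = 2 * (2 * (f + 1) + 1) by ring, lv_even _ (by omega),
          lv_odd, show (3 : ℕ) = 2 * 1 + 1 by norm_num, lv_odd] at h1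
        simp at h1

end Pool.Agent.TH994.TM
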