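import Pool.Agent.TH994.TM.Up

set_option autoImplicit false

/-! Superpolynomial growth of the group `G_ω` for `ω = 0, 1, 0, 1, ...`. -/

namespace Pool.Agent.TH994.TM

open Pool.Agent.Results.MP_03d093_al.SphereBall Pool.Agent.H776R2.Grig Pool.Agent.H776R2.Om

/-- `A ↦ A B A`, the other letters are fixed -/
def lif (w : List Lt) : List Lt := w.flatMap fun s => match s with
  | .A => [.A, .B, .A]
  | s => [s]

theorem lif_cons (s : Lt) (w : List Lt) : lif (s :: w) = lif [s] ++ lif w := by
  simp [lif]

theorem lif_length (w : List Lt) : (lif w).length ≤ 3 * w.length := by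
  induction w with
  | nil => simp [lif]
  | cons s w ih =>
    rw [lif_cons, List.length_append, List.length_cons]
    have : (lif [s]).length ≤ 3 := by cases s <;> simp [lif]
    omega

theorem evo_lif (η : Om) (h0 : η 0 ≠ 2) (w : List Lt) (u : List Bool) :
    evo η (lif w) (true :: u) = true :: evo (sh η) w u := by
  induction w generalizing u with
  | nil => rfl
  | cons s w ih =>
    rw [lif_cons, evo_append, Equiv.Perm.mul_apply, ih, evo_cons (sh η), Equiv.Perm.mul_apply]
    cases s
    · have hc : col (η 0) .b = true := by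
        revert h0
        generalize η 0 = i
        fin_cases i <;> simp [col]
      have e1 : lif [Lt.A] = [.A, .B, .A] := rfl
      rw [e1, evo_cons, evo_cons, evo_cons, evo_nil]
      simp only [Equiv.Perm.mul_apply, Equiv.Perm.coe_one, id]
      show aFun (xFun .b η (aFun (true :: _))) = _
      simp only [aFun, xFun, hc, Bool.not_true, Bool.not_false, if_true]
      rfl
    · rfl
    · rfl
    · rfl

/-- the level transitivity with short words -/
theorem trans_words (k : ℕ) : ∀ (η : Om), (∀ i, η i ≠ 2) → ∀ v : List Bool, v.length = k →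
    ∃ u : List Lt, u.length + 1 ≤ 4 ^ k ∧ ∀ x : List Bool, ∃ y : List Bool,
      evo η u (List.replicate k true ++ x) = v ++ y := by
  induction k with
  | zero =>
    intro η _ v hv
    rw [List.length_eq_zero_iff] at hv
    subst hv
    exact ⟨[], by simp, fun x => ⟨x, rfl⟩⟩
  | succ k ih =>
    intro η hη v hv
    obtain ⟨b, v, rfl⟩ : ∃ b v', v = b :: v' := by
      cases v with
      | nil => simp at hv
      | cons b v => exact ⟨b, v, rfl⟩
    obtain ⟨u, hu, hux⟩ := ih (sh η) (fun i => hη (i + 1)) v (by simpa using hv)
    have hl := lif_length u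
    have h4 : 1 ≤ 4 ^ k := Nat.one_le_pow _ _ (by norm_num)
    cases b
    · refine ⟨.A :: lif u, ?_, fun x => ?_⟩
      · rw [List.length_cons, pow_succ]
        omega
      · obtain ⟨y, hy⟩ := hux x
        refine ⟨y, ?_⟩
        rw [evo_cons, Equiv.Perm.mul_apply, List.replicate_succ, List.cons_append,
          evo_lif η (hη 0), hy]
        rfl
    · refine ⟨lif u, ?_, fun x => ?_⟩
      · rw [pow_succ]
        omega
      · obtain ⟨y, hy⟩ := hux x
        refine ⟨y, ?_⟩
        rw [List.replicate_succ, List.cons_append, evo_lif η (hη 0), hy]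
        rfl

/-- the killed letter of level `k` and the other one -/
def kl (k : ℕ) : V := if k % 2 = 0 then .d else .c
def nk (k : ℕ) : V := if k % 2 = 0 then .c else .d

theorem kl_eq (k : ℕ) : kl k = kil (om k) := by
  unfold kl om
  split_ifs <;> rfl

theorem kl_succ (k : ℕ) : kl (k + 1) = nk k := by
  unfold kl nk
  split_ifs <;> first | rfl | omega

theorem nk_succ (k : ℕ) : nk (k + 1) = kl k := by
  unfold kl nk
  split_ifs <;> first | rfl | omega

theorem nk_ne (k : ℕ) : nk k ≠ kl k := by
  unfold kl nk
  split_ifs <;> simp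

/-- the words for commutators deep in the tree -/
def TW : ℕ → List Lt
  | 0 => [.A, .C, .A, .C]
  | k + 1 => TW k ++ [(kl k).lt] ++ (TW k).reverse ++ [(kl k).lt]

theorem TW_length (k : ℕ) : (TW k).length + 2 ≤ 6 * 2 ^ k := by
  induction k with
  | zero => simp [TW]
  | succ k ih =>
    simp only [TW, List.length_append, List.length_reverse, List.length_cons, List.length_nil]
    rw [pow_succ]
    omega

/-- the element `[a, x]` of `G_(σ^k ω)`, `x` not killed -/
def tk (k : ℕ) : P := a * xx (shi k om) (nk k) * a * xx (shi k om) (nk k)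

theorem xx_deep (ω : Om) (x : V) (k : ℕ) (w : List Bool) :
    xx ω x (List.replicate k true ++ w) = List.replicate k true ++ xx (shi k ω) x w := by
  induction k generalizing ω with
  | zero => rfl
  | succ k ih =>
    rw [List.replicate_succ, List.cons_append, xx_apply]
    simp only [xFun]
    rw [← xx_apply, ih]
    rw [List.cons_append]
    congr 3

/-- a generator `b, c, d` does not move the words that do not start with `1^k` into that subtree -/
theorem xx_pref (ω : Om) (x : V) (k : ℕ) (w : List Bool)
    (h : ¬ List.replicate k true <+: w) : ¬ List.replicate k true <+: xx ω x w := by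
  intro h1
  obtain ⟨u, hu⟩ := h1
  apply h
  refine ⟨xx (shi k ω) x u, ?_⟩
  rw [← xx_deep, hu, ← Equiv.Perm.mul_apply, xx_sq]
  rfl

theorem sec_tk (k : ℕ) : Sec (tk k * xx (shi k om) (kl k) * (tk k)⁻¹ * xx (shi k om) (kl k)) 1
    (tk (k + 1)) := by
  have e0 : (shi k om) 0 = om k := by simp [shi]
  have hsh : sh (shi k om) = shi (k + 1) om := sh_shi k om
  have s1 : Sec (xx (shi k om) (kl k)) 1 (xx (shi (k + 1) om) (kl k)) := by
    have := sec_xx (shi k om) (kl k)
    rw [e0, ← kl_eq, if_pos rfl, hsh] at this
    exact this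
  have s2 : Sec (xx (shi k om) (nk k)) a (xx (shi (k + 1) om) (nk k)) := by
    have := sec_xx (shi k om) (nk k)
    rw [e0, ← kl_eq, if_neg (nk_ne k), hsh] at this
    exact this
  set z := xx (shi (k + 1) om) (nk k) with hz
  set y := xx (shi (k + 1) om) (kl k) with hy
  have s3 : Sec (tk k) (z * a) (a * z) := by
    have := s2.conj.mul s2
    unfold tk
    exact this
  have hinv : (tk k)⁻¹ = xx (shi k om) (nk k) * (a * xx (shi k om) (nk k) * a) := by
    unfold tk
    have h1 := xx_sq (shi k om) (nk k)
    rw [inv_eq_iff_mul_eq_one]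
    calc a * xx (shi k om) (nk k) * a * xx (shi k om) (nk k) *
          (xx (shi k om) (nk k) * (a * xx (shi k om) (nk k) * a))
        = a * xx (shi k om) (nk k) * a * (xx (shi k om) (nk k) * xx (shi k om) (nk k)) * a *
          xx (shi k om) (nk k) * a := by simp only [mul_assoc]
      _ = a * xx (shi k om) (nk k) * (a * a) * xx (shi k om) (nk k) * a := by
          rw [h1]
          simp only [mul_assoc, mul_one, one_mul]
      _ = a * (xx (shi k om) (nk k) * xx (shi k om) (nk k)) * a := by
          rw [aa]
          simp only [mul_assoc, mul_one, one_mul]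
      _ = 1 := by rw [h1, mul_one, aa]
  have s4 : Sec (tk k)⁻¹ (a * z) (z * a) := by
    rw [hinv]
    exact s2.mul s2.conj
  have s5 := ((s3.mul s1).mul s4).mul s1
  have hz2 : z * z = 1 := xx_sq _ _
  have hy2 : y * y = 1 := xx_sq _ _
  have hcomm : z * y = y * z := by
    have h1 := xx_mul (shi (k + 1) om) (nk k) (kl k) .b (nk_ne k) (by unfold kl; split_ifs <;> simp)
      (by unfold nk; split_ifs <;> simp)
    have h2 := xx_mul (shi (k + 1) om) (kl k) (nk k) .b (nk_ne k).symm
      (by unfold nk; split_ifs <;> simp) (by unfold kl; split_ifs <;> simp)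
    rw [hz, hy, h1, h2]
  have e1 : z * a * 1 * (a * z) * 1 = 1 := by
    calc z * a * 1 * (a * z) * 1 = z * (a * a) * z := by simp only [mul_assoc, mul_one, one_mul]
      _ = 1 := by rw [aa, mul_one, hz2]
  have e2 : a * z * y * (z * a) * y = tk (k + 1) := by
    unfold tk
    rw [nk_succ, ← hy]
    calc a * z * y * (z * a) * y = a * (z * y * z) * a * y := by simp only [mul_assoc]
      _ = a * (y * (z * z)) * a * y := by rw [hcomm]; simp only [mul_assoc]
      _ = a * y * a * y := by rw [hz2, mul_one]
  rw [e1, e2] at s5
  exact s5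

/-- the word `TW k` acts like `tk k` below `1^k` and trivially elsewhere -/
theorem TW_act (k : ℕ) : (∀ w, evo om (TW k) (List.replicate k true ++ w) =
      List.replicate k true ++ tk k w) ∧
    (∀ w, ¬ List.replicate k true <+: w → evo om (TW k) w = w) := by
  induction k with
  | zero =>
    refine ⟨fun w => ?_, fun w hw => absurd (List.nil_prefix) hw⟩
    simp only [TW, List.replicate_zero, List.nil_append]
    unfold tk
    rw [evo_cons, evo_cons, evo_cons, evo_cons, evo_nil, shi_zero]
    rfl
  | succ k ih =>
    have hev : evo om (TW (k + 1)) =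
        evo om (TW k) * xx om (kl k) * (evo om (TW k))⁻¹ * xx om (kl k) := by
      simp only [TW]
      rw [evo_append, evo_append, evo_append, evo_reverse, evo_cons, evo_nil, mul_one, gno_lt]
    have hinv1 : ∀ w, (evo om (TW k))⁻¹ (List.replicate k true ++ w) =
        List.replicate k true ++ (tk k)⁻¹ w := by
      intro w
      rw [Equiv.Perm.inv_eq_iff_eq, ih.1]
      simp
    have hinv2 : ∀ w, ¬ List.replicate k true <+: w → (evo om (TW k))⁻¹ w = w := by
      intro w hw
      rw [Equiv.Perm.inv_eq_iff_eq, ih.2 w hw]
    have key : ∀ w, evo om (TW (k + 1)) (List.replicate k true ++ w) = List.replicate k true ++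
        (tk k * xx (shi k om) (kl k) * (tk k)⁻¹ * xx (shi k om) (kl k)) w := by
      intro w
      rw [hev]
      simp only [Equiv.Perm.mul_apply]
      rw [xx_deep, hinv1, xx_deep, ih.1]
    have hrep : ∀ w : List Bool, List.replicate (k + 1) true ++ w = List.replicate k true ++ (true :: w) := by
      intro w
      rw [List.replicate_succ', List.append_assoc]
      rfl
    refine ⟨fun w => ?_, fun w hw => ?_⟩
    · rw [hrep, key, (sec_tk k w).2, hrep]
    · by_cases hpk : List.replicate k true <+: w
      · obtain ⟨u, rfl⟩ := hpk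
        rw [key]
        congr 1
        match u with
        | [] =>
          have hTA : ∀ g : P, (∃ v, evo (shi k om) v = g) → g [] = [] := by
            rintro g ⟨v, rfl⟩
            exact evo_nil_apply _ v
          apply hTA
          have h1 : tk k = evo (shi k om) [.A, (nk k).lt, .A, (nk k).lt] := by
            rw [evo_cons, evo_cons, evo_cons, evo_cons, evo_nil, gno_lt]
            rfl
          refine ⟨[.A, (nk k).lt, .A, (nk k).lt] ++ [(kl k).lt] ++
            ([.A, (nk k).lt, .A, (nk k).lt] : List Lt).reverse ++ [(kl k).lt], ?_⟩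
          rw [evo_append, evo_append, evo_append, evo_reverse, ← h1, evo_cons, evo_nil, mul_one, gno_lt]
        | false :: u => rw [(sec_tk k u).1]; rfl
        | true :: u =>
          exfalso
          apply hw
          rw [← hrep]
          exact List.prefix_append _ _
      · have h2 := xx_pref om (kl k) k w hpk
        rw [hev]
        simp only [Equiv.Perm.mul_apply]
        rw [hinv2 _ h2, ← Equiv.Perm.mul_apply (xx om (kl k)), xx_sq]
        exact ih.2 w hpk

theorem tk_ne (k : ℕ) : ∃ w, tk k w ≠ w := by
  refine ⟨[false, true], ?_⟩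
  have e0 : (shi k om) 0 = om k := by simp [shi]
  have hsh : sh (shi k om) = shi (k + 1) om := sh_shi k om
  have s2 : Sec (xx (shi k om) (nk k)) a (xx (shi (k + 1) om) (nk k)) := by
    have := sec_xx (shi k om) (nk k)
    rw [e0, ← kl_eq, if_neg (nk_ne k), hsh] at this
    exact this
  have s3 : Sec (tk k) (xx (shi (k + 1) om) (nk k) * a) (a * xx (shi (k + 1) om) (nk k)) := by
    have := s2.conj.mul s2
    unfold tk
    exact this
  rw [(s3 [true]).1]
  have e1 : (xx (shi (k + 1) om) (nk k) * a) [true] = [false] := by
    rw [Equiv.Perm.mul_apply]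
    show xFun (nk k) (shi (k + 1) om) [false] = [false]
    simp only [xFun]
    split_ifs <;> rfl
  rw [e1]
  simp

theorem om_ne (i : ℕ) : om i ≠ 2 := by
  unfold om
  split_ifs <;> decide

theorem tk_nil (k : ℕ) : tk k [] = [] := by
  have h1 : tk k = evo (shi k om) [.A, (nk k).lt, .A, (nk k).lt] := by
    rw [evo_cons, evo_cons, evo_cons, evo_cons, evo_nil, gno_lt]
    rfl
  rw [h1]
  exact evo_nil_apply _ _

/-- For every vertex `v` of level `k` there is a short word acting non-trivially below `v` and trivially
elsewhere. -/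
theorem vertex_words (k : ℕ) (v : List Bool) (hv : v.length = k) : ∃ s : List Lt,
    s.length ≤ 8 * 4 ^ k ∧ (∀ w, w.take k ≠ v → evo om s w = w) ∧
    (∀ w, w.take k = v → (evo om s w).take k = v) ∧
    ∃ w, w.take k = v ∧ evo om s w ≠ w := by
  obtain ⟨u, hu, hux⟩ := trans_words k om om_ne v hv
  have hTA := ta_evo om u
  have hTA' : TA ((evo om u)⁻¹) := by
    rw [← evo_reverse]
    exact ta_evo om _
  have huv : evo om u (List.replicate k true) = v := by
    obtain ⟨y, hy⟩ := hux []
    rw [List.append_nil] at hy
    have h1 := hTA.1 (List.replicate k true)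
    rw [hy, List.length_append, hv, List.length_replicate] at h1
    have : y = [] := List.length_eq_zero_iff.1 (by omega)
    rw [hy, this, List.append_nil]
  have huv' : (evo om u)⁻¹ v = List.replicate k true := by
    rw [Equiv.Perm.inv_eq_iff_eq, huv]
  have hev : evo om (u ++ TW k ++ u.reverse) = evo om u * evo om (TW k) * (evo om u)⁻¹ := by
    rw [evo_append, evo_append, evo_reverse]
  have hact := TW_act k
  have hpre : ∀ w : List Bool, List.replicate k true <+: w ↔ w.take k = List.replicate k true := by
    intro w
    rw [List.prefix_iff_eq_take, List.length_replicate]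
    exact eq_comm
  have hTrep : evo om (TW k) (List.replicate k true) = List.replicate k true := by
    have := hact.1 []
    rw [tk_nil, List.append_nil] at this
    exact this
  have hsv : evo om (u ++ TW k ++ u.reverse) v = v := by
    rw [hev]
    simp only [Equiv.Perm.mul_apply]
    rw [huv', hTrep, huv]
  refine ⟨u ++ TW k ++ u.reverse, ?_, ?_, ?_, ?_⟩
  · have h1 := TW_length k
    have h2 : 2 ^ k ≤ 4 ^ k := Nat.pow_le_pow_left (by norm_num) k
    simp only [List.length_append, List.length_reverse]
    omega
  · intro w hw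
    rw [hev]
    simp only [Equiv.Perm.mul_apply]
    rw [hact.2]
    · simp
    · rw [hpre, hTA'.2]
      intro h
      apply hw
      rw [Equiv.Perm.inv_eq_iff_eq, huv] at h
      exact h
  · intro w hw
    rw [(ta_evo om _).2, hw, hsv]
  · obtain ⟨x, hx⟩ := tk_ne k
    refine ⟨evo om u (List.replicate k true ++ x), ?_, ?_⟩
    · rw [hTA.2, List.take_append_of_le_length (by simp), List.take_of_length_le (by simp), huv]
    · rw [hev]
      simp only [Equiv.Perm.mul_apply]
      intro h
      rw [show (evo om u)⁻¹ (evo om u (List.replicate k true ++ x)) = List.replicate k true ++ x from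
        Equiv.symm_apply_apply _ _, hact.1] at h
      have h2 := (evo om u).injective h
      exact hx (List.append_cancel_left h2)

theorem om_lower (k : ℕ) : 2 ^ (2 ^ k) ≤ ballO om (8 ^ (k + 1)) := by
  choose s hs1 hs2 hs3 hs4 using fun v : List.Vector Bool k => vertex_words k v.1 v.2
  -- words of sets of vertices
  set W : List (List.Vector Bool k) → List Lt := fun l => l.flatMap s with hW
  have hact : ∀ l : List (List.Vector Bool k), l.Nodup → ∀ v : List.Vector Bool k, ∀ w : List Bool,
      w.take k = v.1 → evo om (W l) w = if v ∈ l then evo om (s v) w else w := by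
    intro l
    induction l with
    | nil =>
      intro _ v w _
      simp [hW, evo_nil]
    | cons x l ih =>
      intro hl v w hw
      rw [List.nodup_cons] at hl
      have e1 : W (x :: l) = s x ++ W l := by simp [hW]
      rw [e1, evo_append, Equiv.Perm.mul_apply, ih hl.2 v w hw]
      by_cases h1 : v ∈ l
      · have hvx : v ≠ x := fun h => hl.1 (h ▸ h1)
        rw [if_pos h1, if_pos (List.mem_cons_of_mem _ h1)]
        apply hs2
        rw [hs3 v w hw]
        exact fun h => hvx (Subtype.ext h)
      · rw [if_neg h1]
        by_cases h2 : v = x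
        · subst h2
          rw [if_pos (List.mem_cons_self)]
        · rw [if_neg (by simp [h1, h2])]
          apply hs2
          rw [hw]
          exact fun h => h2 (Subtype.ext h)
  have hlen : ∀ l : List (List.Vector Bool k), (W l).length ≤ l.length * (8 * 4 ^ k) := by
    intro l
    induction l with
    | nil => simp [hW]
    | cons x l ih =>
      have e1 : W (x :: l) = s x ++ W l := by simp [hW]
      rw [e1, List.length_append, List.length_cons, Nat.succ_mul]
      have := hs1 x
      omega
  have hcard : Fintype.card (List.Vector Bool k) = 2 ^ k := by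
    rw [card_vector]
    simp
  have hball : ∀ S : Finset (List.Vector Bool k), lenO om (evG om (W S.toList)) ≤ 8 ^ (k + 1) := by
    intro S
    refine (lenO_le om _).trans ((hlen _).trans ?_)
    rw [Finset.length_toList]
    have h1 : S.card ≤ 2 ^ k := by
      rw [← hcard]
      exact Finset.card_le_univ S
    calc S.card * (8 * 4 ^ k) ≤ 2 ^ k * (8 * 4 ^ k) := Nat.mul_le_mul_right _ h1
      _ = 8 ^ (k + 1) := by
        rw [pow_succ, show (8 : ℕ) ^ k = 2 ^ k * 4 ^ k by rw [← mul_pow]; norm_num]
        ring
  have hinj : Function.Injective (fun S : Finset (List.Vector Bool k) =>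
      (⟨evG om (W S.toList), hball S⟩ : {g : Gom om // lenO om g ≤ 8 ^ (k + 1)})) := by
    intro S S' h
    have h1 : evo om (W S.toList) = evo om (W S'.toList) :=
      congrArg (fun z => ((z.1 : Gom om) : P)) h
    ext v
    obtain ⟨w, hw, hne⟩ := hs4 v
    have e1 := hact S.toList (Finset.nodup_toList S) v w hw
    have e2 := hact S'.toList (Finset.nodup_toList S') v w hw
    rw [h1, e2] at e1
    simp only [Finset.mem_toList] at e1
    by_cases c1 : v ∈ S <;> by_cases c2 : v ∈ S'
    · simp [c1, c2]
    · rw [if_neg c2, if_pos c1] at e1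
      exact absurd e1.symm hne
    · rw [if_pos c2, if_neg c1] at e1
      exact absurd e1 hne
    · simp [c1, c2]
  have h2 := Nat.card_le_card_of_injective _ hinj
  rw [Nat.card_eq_fintype_card, Fintype.card_finset, hcard] at h2
  exact h2

/-- **superpolynomial growth** -/
theorem om_superpoly (d : ℕ) : ∀ᶠ n : ℕ in Filter.atTop, n ^ d ≤ ballO om n := by
  filter_upwards [Filter.eventually_ge_atTop (8 ^ (24 * d + 6))] with n hn
  have hn0 : n ≠ 0 := by
    intro h
    rw [h] at hn
    have : 0 < 8 ^ (24 * d + 6) := by positivity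
    omega
  set L := Nat.log 8 n with hL
  have hL1 : 24 * d + 6 ≤ L := Nat.le_log_of_pow_le (by norm_num) hn
  obtain ⟨k, hk⟩ : ∃ k, L = k + 1 := ⟨L - 1, by omega⟩
  have h1 : 8 ^ (k + 1) ≤ n := by
    rw [← hk]
    exact Nat.pow_log_le_self 8 hn0
  have h2 : n < 8 ^ (k + 2) := by
    have := Nat.lt_pow_succ_log_self (b := 8) (by norm_num) n
    rw [← hL, hk] at this
    exact this
  have h3 : 3 * (k + 2) * d ≤ 2 ^ k := by
    have e1 : 12 * d < 2 ^ (12 * d) := Nat.lt_two_pow_self
    have e2 : k - 12 * d < 2 ^ (k - 12 * d) := Nat.lt_two_pow_self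
    have e3 : 2 ^ k = 2 ^ (k - 12 * d) * 2 ^ (12 * d) := by
      rw [← pow_add]
      congr 1
      omega
    rw [e3]
    have e4 : k + 2 ≤ 2 * (k - 12 * d + 1) := by omega
    calc 3 * (k + 2) * d ≤ 3 * (2 * (k - 12 * d + 1)) * d := by gcongr
      _ = (k - 12 * d + 1) * (6 * d) := by ring
      _ ≤ 2 ^ (k - 12 * d) * 2 ^ (12 * d) := by
        apply Nat.mul_le_mul
        · omega
        · omega
  calc n ^ d ≤ (8 ^ (k + 2)) ^ d := Nat.pow_le_pow_left h2.le d
    _ = 2 ^ (3 * (k + 2) * d) := by
      rw [show (8 : ℕ) = 2 ^ 3 by norm_num, ← pow_mul, ← pow_mul, mul_assoc]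
    _ ≤ 2 ^ (2 ^ k) := Nat.pow_le_pow_right (by norm_num) h3
    _ ≤ ballO om (8 ^ (k + 1)) := om_lower k
    _ ≤ ballO om n := ballO_mono om h1

end Pool.Agent.TH994.TM
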