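import Pool.Agent.H776R2.Om.Upper

set_option autoImplicit false

/-! Subexponential growth of the group `G_ω` for `ω = 0, 1, 0, 1, ...`, in which the letter `b` is never
killed. -/

namespace Pool.Agent.TH994.TM

open Pool.Agent.Results.MP_03d093_al.SphereBall Pool.Agent.H776R2.Grig Pool.Agent.H776R2.Om

/-- sums over lists -/
theorem sum_len {β : Type} (f : β → ENNReal) (n : ℕ) :
    ∑' v : {l : List β // l.length = n}, (v.1.map f).prod = (∑' b, f b) ^ n := by
  induction n with
  | zero =>
    have hu : Unique {l : List β // l.length = 0} :=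
      ⟨⟨⟨[], rfl⟩⟩, fun v => Subtype.ext (List.length_eq_zero_iff.1 v.2)⟩
    rw [tsum_eq_single (⟨[], rfl⟩ : {l : List β // l.length = 0})]
    · simp
    · intro b hb
      exact absurd (Subtype.ext (List.length_eq_zero_iff.1 b.2)) hb
  | succ n ih =>
    let e : β × {l : List β // l.length = n} ≃ {l : List β // l.length = n + 1} :=
      { toFun := fun p => ⟨p.1 :: p.2.1, by simp [p.2.2]⟩
        invFun := fun v => match v with
          | ⟨b :: l, h⟩ => (b, ⟨l, by simpa using h⟩)
        left_inv := fun p => rfl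
        right_inv := fun v => match v with
          | ⟨b :: l, h⟩ => rfl }
    rw [← e.tsum_eq, ENNReal.tsum_prod']
    have h1 : ∀ b : β, ∑' v : {l : List β // l.length = n}, ((e (b, v)).1.map f).prod =
        f b * (∑' b, f b) ^ n := by
      intro b
      rw [← ih, ← ENNReal.tsum_mul_left]
      refine tsum_congr fun v => ?_
      simp [e]
    rw [tsum_congr h1, ENNReal.tsum_mul_right, pow_succ, mul_comm]

theorem sum_list {β : Type} (f : β → ENNReal) :
    ∑' l : List β, (l.map f).prod = ∑' n : ℕ, (∑' b, f b) ^ n := by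
  rw [← (Equiv.sigmaFiberEquiv (List.length : List β → ℕ)).tsum_eq, ENNReal.tsum_sigma']
  refine tsum_congr fun n => ?_
  rw [← sum_len f n]
  rfl

/-- alternating words in `A`, `B`: `alt true n = ABAB...`, `alt false n = BABA...` -/
def alt : Bool → ℕ → List Lt
  | _, 0 => []
  | true, n + 1 => .A :: alt false n
  | false, n + 1 => .B :: alt true n

/-- the number of letters `B` -/
def nb : Bool → ℕ → ℕ
  | true, n => n / 2
  | false, n => (n + 1) / 2

/-- codes of words: syllables (alternating word, letter `C` or `D`) and a last alternating word -/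
abbrev Code := List ((Bool × ℕ) × Bool) × (Bool × ℕ)

/-- the letter `C` or `D` -/
def cd : Bool → Lt
  | true => .C
  | false => .D

def decL : List ((Bool × ℕ) × Bool) → List Lt
  | [] => []
  | p :: l => alt p.1.1 p.1.2 ++ cd p.2 :: decL l

def dec (x : Code) : List Lt := decL x.1 ++ alt x.2.1 x.2.2

/-- put a letter `A` (`e = true`) or `B` in front of a block -/
def pre (e : Bool) (u : Bool × ℕ) : Bool × ℕ :=
  if u.2 = 0 then (e, 1) else if u.1 = e then (!e, u.2 - 1) else (e, u.2 + 1)

def preC (e : Bool) : Code → Code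
  | ([], u) => ([], pre e u)
  | (p :: l, u) => ((pre e p.1, p.2) :: l, u)

def red : List Lt → Code
  | [] => ([], (true, 0))
  | .A :: w => preC true (red w)
  | .B :: w => preC false (red w)
  | .C :: w => (((true, 0), true) :: (red w).1, (red w).2)
  | .D :: w => (((true, 0), false) :: (red w).1, (red w).2)

/-- the letter `A` or `B` -/
def ab : Bool → Lt
  | true => .A
  | false => .B

theorem alt_succ (e : Bool) (n : ℕ) : alt e (n + 1) = ab e :: alt (!e) n := by
  cases e <;> rfl

theorem evo_pre (η : Om) (e : Bool) (u : Bool × ℕ) :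
    evo η (alt (pre e u).1 (pre e u).2) = gno η (ab e) * evo η (alt u.1 u.2) := by
  obtain ⟨b, n⟩ := u
  unfold pre
  simp only
  split_ifs with h1 h2
  · subst h1
    cases e <;> cases b <;> rfl
  · subst h2
    obtain ⟨m, rfl⟩ : ∃ m, n = m + 1 := ⟨n - 1, by omega⟩
    rw [alt_succ, evo_cons, ← mul_assoc, gno_sq, one_mul, Nat.add_sub_cancel]
  · rw [alt_succ, evo_cons]
    have : b = !e := by
      cases b <;> cases e <;> simp_all
    rw [this]

theorem evo_preC (η : Om) (e : Bool) (x : Code) :
    evo η (dec (preC e x)) = gno η (ab e) * evo η (dec x) := by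
  obtain ⟨l, u⟩ := x
  cases l with
  | nil =>
    simp only [preC, dec, decL, List.nil_append]
    exact evo_pre η e u
  | cons p l =>
    simp only [preC, dec, decL]
    rw [evo_append, evo_append, evo_append, evo_append, evo_pre]
    simp only [mul_assoc]

theorem evo_red (η : Om) (w : List Lt) : evo η (dec (red w)) = evo η w := by
  induction w with
  | nil => rfl
  | cons s w ih =>
    cases s
    · rw [red, evo_preC, ih, evo_cons]
      rfl
    · rw [red, evo_preC, ih, evo_cons]
      rfl
    · rw [red, evo_cons, ← ih]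
      simp only [dec, decL, alt, cd, List.nil_append, List.cons_append]
      rw [evo_cons]
    · rw [red, evo_cons, ← ih]
      simp only [dec, decL, alt, cd, List.nil_append, List.cons_append]
      rw [evo_cons]

/-- the cost of a code -/
noncomputable def kc (α : V → ℝ) (x : Code) : ℝ :=
  (x.1.map fun p => (nb p.1.1 p.1.2 : ℝ) * α .b + wt α (cd p.2)).sum + (nb x.2.1 x.2.2 : ℝ) * α .b

theorem nb_pre (e : Bool) (u : Bool × ℕ) :
    nb (pre e u).1 (pre e u).2 ≤ (if e then 0 else 1) + nb u.1 u.2 := by
  obtain ⟨b, n⟩ := u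
  unfold pre
  simp only
  split_ifs with h1 h2 h3 h4 h5
  all_goals (cases e <;> cases b <;> simp_all [nb] <;> omega)

theorem kc_preC (α : V → ℝ) (hb : 0 ≤ α .b) (e : Bool) (x : Code) :
    kc α (preC e x) ≤ wt α (ab e) + kc α x := by
  obtain ⟨l, u⟩ := x
  have key : ∀ v : Bool × ℕ, (nb (pre e v).1 (pre e v).2 : ℝ) * α .b ≤
      wt α (ab e) + (nb v.1 v.2 : ℝ) * α .b := by
    intro v
    have h1 : (nb (pre e v).1 (pre e v).2 : ℝ) ≤ (if e then 0 else 1) + nb v.1 v.2 := by
      have := nb_pre e v
      cases e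
      · simpa using (by exact_mod_cast this : (nb (pre false v).1 (pre false v).2 : ℝ) ≤ 1 + nb v.1 v.2)
      · simpa using (by exact_mod_cast this : (nb (pre true v).1 (pre true v).2 : ℝ) ≤ 0 + nb v.1 v.2)
    have h2 := mul_le_mul_of_nonneg_right h1 hb
    refine h2.trans (le_of_eq ?_)
    cases e
    · simp [ab, Pool.Agent.H776R2.Om.wt]
      ring
    · simp [ab, Pool.Agent.H776R2.Om.wt]
  cases l with
  | nil =>
    simp only [preC, kc, List.map_nil, List.sum_nil, zero_add]
    exact key u
  | cons p l =>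
    simp only [preC, kc, List.map_cons, List.sum_cons]
    have := key p.1
    linarith

theorem kc_red (α : V → ℝ) (hb : 0 ≤ α .b) (w : List Lt) : kc α (red w) ≤ Kwo α w := by
  induction w with
  | nil => simp [red, kc, Kwo, nb]
  | cons s w ih =>
    have h0 : Kwo α (s :: w) = wt α s + Kwo α w := by simp [Kwo]
    rw [h0]
    cases s
    · exact (kc_preC α hb true (red w)).trans (by simpa [ab] using ih)
    · exact (kc_preC α hb false (red w)).trans (by simpa [ab] using ih)
    · have : kc α (red (.C :: w)) = wt α .C + kc α (red w) := by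
        simp only [red, kc, List.map_cons, List.sum_cons, nb, cd]
        norm_num
        ring
      rw [this]
      linarith
    · have : kc α (red (.D :: w)) = wt α .D + kc α (red w) := by
        simp only [red, kc, List.map_cons, List.sum_cons, nb, cd]
        norm_num
        ring
      rw [this]
      linarith

/-- the weight `exp (-s n_B)` of a block -/
noncomputable def fb (t : ℝ) (u : Bool × ℕ) : ENNReal := ENNReal.ofReal (Real.exp (-t * nb u.1 u.2))

/-- the weight of the letter `C` or `D` -/
noncomputable def fz (α : V → ℝ) (s : ℝ) (z : Bool) : ENNReal :=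
  ENNReal.ofReal (Real.exp (-s * wt α (cd z)))

theorem exp_kc (α : V → ℝ) (s : ℝ) (x : Code) :
    ENNReal.ofReal (Real.exp (-s * kc α x)) =
      (x.1.map fun p => fb (s * α .b) p.1 * fz α s p.2).prod * fb (s * α .b) x.2 := by
  obtain ⟨l, u⟩ := x
  simp only [kc]
  rw [mul_add, Real.exp_add, ENNReal.ofReal_mul (Real.exp_pos _).le]
  congr 1
  · induction l with
    | nil => simp
    | cons p l ih =>
      simp only [List.map_cons, List.sum_cons, List.prod_cons]
      rw [mul_add, Real.exp_add, ENNReal.ofReal_mul (Real.exp_pos _).le, ih]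
      congr 1
      unfold fb fz
      rw [← ENNReal.ofReal_mul (Real.exp_pos _).le, ← Real.exp_add]
      congr 2
      ring
  · unfold fb
    congr 2
    ring

/-- the sum over the blocks -/
noncomputable def SB (t : ℝ) : ENNReal := ∑' u : Bool × ℕ, fb t u

theorem SB_lt (t : ℝ) (ht : 0 < t) : SB t < ⊤ := by
  unfold SB
  have h1 : ∀ u : Bool × ℕ, fb t u ≤ ENNReal.ofReal (Real.exp t) *
      ENNReal.ofReal (Real.exp (-t / 2)) ^ u.2 := by
    rintro ⟨b, n⟩
    unfold fb
    rw [← ENNReal.ofReal_pow (Real.exp_pos _).le, ← ENNReal.ofReal_mul (Real.exp_pos _).le,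
      ← Real.exp_nat_mul, ← Real.exp_add]
    apply ENNReal.ofReal_le_ofReal
    apply Real.exp_le_exp.2
    have h2 : (n : ℝ) ≤ 2 * nb b n + 1 := by
      have : n ≤ 2 * nb b n + 1 := by cases b <;> simp only [nb] <;> omega
      exact_mod_cast this
    simp only
    nlinarith
  refine lt_of_le_of_lt (ENNReal.tsum_le_tsum h1) ?_
  rw [ENNReal.tsum_mul_left, ENNReal.tsum_prod']
  simp only
  rw [tsum_fintype, Fintype.sum_bool, ← two_mul, ENNReal.tsum_geometric]
  apply ENNReal.mul_lt_top ENNReal.ofReal_lt_top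
  apply ENNReal.mul_lt_top (by simp)
  rw [ENNReal.inv_lt_top, tsub_pos_iff_lt, ENNReal.ofReal_lt_one]
  rw [Real.exp_lt_one_iff]
  linarith

/-- finiteness of the partition function when the two letters `c, d` are expensive enough -/
theorem ZO_fin (η : Om) (α : V → ℝ) (hα : Tri α) (s : ℝ) (hs : 0 < s)
    (h : SB (s * α .b) * (fz α s true + fz α s false) < 1) : ZO η α s < ⊤ := by
  choose w hw hK using fun g : Gom η => E_exists (η := η) α g.2 one_pos
  have hinj : Function.Injective (fun g : Gom η => red (w g)) := by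
    intro g g' hgg
    apply Subtype.ext
    rw [← hw g, ← hw g', ← evo_red η (w g), ← evo_red η (w g')]
    exact congrArg (fun x => evo η (dec x)) hgg
  have h1 : ∀ g : Gom η, ENNReal.ofReal (Real.exp (-s * KO η α g)) ≤
      ENNReal.ofReal (Real.exp s) * ENNReal.ofReal (Real.exp (-s * kc α (red (w g)))) := by
    intro g
    rw [← ENNReal.ofReal_mul (Real.exp_pos _).le, ← Real.exp_add]
    apply ENNReal.ofReal_le_ofReal
    apply Real.exp_le_exp.2
    have h2 := (kc_red α (hα.pos .b).le (w g)).trans (hK g).le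
    nlinarith
  have h3 : ZO η α s ≤ ENNReal.ofReal (Real.exp s) *
      ∑' x : Code, ENNReal.ofReal (Real.exp (-s * kc α x)) := by
    unfold ZO
    refine (ENNReal.tsum_le_tsum h1).trans ?_
    rw [ENNReal.tsum_mul_left]
    gcongr
    exact ENNReal.tsum_comp_le_tsum_of_injective hinj _
  refine lt_of_le_of_lt h3 ?_
  apply ENNReal.mul_lt_top ENNReal.ofReal_lt_top
  rw [tsum_congr (exp_kc α s), ENNReal.tsum_prod']
  simp only [ENNReal.tsum_mul_left, ENNReal.tsum_mul_right]
  have hb : SB (s * α .b) < ⊤ := SB_lt _ (mul_pos hs (hα.pos .b))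
  refine ENNReal.mul_lt_top ?_ hb
  rw [sum_list, ENNReal.tsum_geometric, ENNReal.inv_lt_top, tsub_pos_iff_lt]
  refine lt_of_le_of_lt (le_of_eq ?_) h
  rw [ENNReal.tsum_prod']
  simp only [ENNReal.tsum_mul_left, ENNReal.tsum_mul_right]
  have e1 : ∑' z : Bool, fz α s z = fz α s true + fz α s false := by
    rw [tsum_fintype, Fintype.sum_bool]
  rw [e1]
  rfl

/-- the sequence `0, 1, 0, 1, ...` -/
def om : Om := fun n => if n % 2 = 0 then 0 else 1

theorem al_om_b (i : ℕ) : al om i .b = 1 := by
  induction i with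
  | zero => exact al_zero om .b
  | succ i ih =>
    rw [al_succ, stp, if_neg, ih]
    unfold om
    split_ifs <;> simp [kil]

theorem al_om_ge (j : ℕ) : (j : ℝ) / 2 ≤ al om (2 * j) .c ∧ (j : ℝ) / 2 ≤ al om (2 * j) .d := by
  induction j with
  | zero => simp [al_zero]
  | succ j ih =>
    have e1 : om (2 * j) = 0 := by simp [om]
    have e2 : om (2 * j + 1) = 1 := by
      unfold om
      rw [if_neg (by omega)]
    have hb := al_om_b (2 * j)
    have hb1 := al_om_b (2 * j + 1)
    have s1 : al om (2 * j + 1) .c = al om (2 * j) .c := by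
      rw [al_succ, e1, stp, if_neg (by simp [kil])]
    have s2 : al om (2 * j + 1) .d = (al om (2 * j) .b + al om (2 * j) .c + al om (2 * j) .d) / 2 := by
      rw [al_succ, e1, stp, if_pos (by simp [kil])]
    have s3 : al om (2 * j + 1 + 1) .c =
        (al om (2 * j + 1) .b + al om (2 * j + 1) .c + al om (2 * j + 1) .d) / 2 := by
      rw [al_succ, e2, stp, if_pos (by simp [kil])]
    have s4 : al om (2 * j + 1 + 1) .d = al om (2 * j + 1) .d := by
      rw [al_succ, e2, stp, if_neg (by simp [kil])]
    have e3 : 2 * (j + 1) = 2 * j + 1 + 1 := by ring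
    rw [e3, s3, s4, hb1, s1, s2, hb]
    push_cast
    constructor <;> linarith [ih.1, ih.2]

/-- for every `s > 0` the partition function of `G_ω` is finite -/
theorem ZO_om_fin (s : ℝ) (hs : 0 < s) : ZO om (al om 0) s < ⊤ := by
  -- choose the level
  have hSB : SB s < ⊤ := SB_lt s hs
  obtain ⟨j, hj⟩ : ∃ j : ℕ, SB s * (2 * ENNReal.ofReal (Real.exp (-s * (j / 2)))) < 1 := by
    have hlim : Filter.Tendsto (fun j : ℕ => (SB s).toReal * (2 * Real.exp (-s * (j / 2))))
        Filter.atTop (nhds ((SB s).toReal * (2 * 0))) := by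
      apply Filter.Tendsto.const_mul
      apply Filter.Tendsto.const_mul
      have h1 : Filter.Tendsto (fun j : ℕ => -s * ((j : ℝ) / 2)) Filter.atTop Filter.atBot := by
        have h2 : Filter.Tendsto (fun j : ℕ => (s / 2) * (j : ℝ)) Filter.atTop Filter.atTop :=
          Filter.Tendsto.const_mul_atTop (by positivity) tendsto_natCast_atTop_atTop
        have h3 := Filter.tendsto_neg_atTop_atBot.comp h2
        refine h3.congr (fun j => ?_)
        simp only [Function.comp]
        ring
      exact Real.tendsto_exp_atBot.comp h1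
    have hev := hlim.eventually (gt_mem_nhds (show (SB s).toReal * (2 * 0) < 1 by norm_num))
    obtain ⟨j, hj⟩ := hev.exists
    refine ⟨j, ?_⟩
    have e1 : SB s * (2 * ENNReal.ofReal (Real.exp (-s * (j / 2)))) =
        ENNReal.ofReal ((SB s).toReal * (2 * Real.exp (-s * (j / 2)))) := by
      rw [ENNReal.ofReal_mul ENNReal.toReal_nonneg, ENNReal.ofReal_toReal hSB.ne,
        ENNReal.ofReal_mul (by norm_num)]
      simp
    rw [e1]
    rw [ENNReal.ofReal_lt_one]
    exact hj
  set k := 2 * j with hk
  have hfin : ZO (shi k om) (al om k) s < ⊤ := by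
    apply ZO_fin _ _ (al_tri om k) s hs
    rw [al_om_b, mul_one]
    refine lt_of_le_of_lt ?_ hj
    gcongr
    rw [two_mul]
    have hge := al_om_ge j
    rw [← hk] at hge
    apply add_le_add
    · unfold fz
      apply ENNReal.ofReal_le_ofReal
      apply Real.exp_le_exp.2
      simp only [cd, Pool.Agent.H776R2.Om.wt]
      nlinarith [hge.1]
    · unfold fz
      apply ENNReal.ofReal_le_ofReal
      apply Real.exp_le_exp.2
      simp only [cd, Pool.Agent.H776R2.Om.wt]
      nlinarith [hge.2]
  have hit := F_iter om k s (2 * s * ((ell om k : ℝ) / 2 ^ k)) hs.le le_rfl k 0 (by omega)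
  have h2 : 2 * ENNReal.ofReal (Real.exp (2 * s * ((ell om k : ℝ) / 2 ^ k))) *
      ZO (shi 0 om) (al om 0) s < ⊤ := by
    refine lt_of_le_of_lt hit ?_
    apply ENNReal.pow_lt_top
    exact ENNReal.mul_lt_top (ENNReal.mul_lt_top (by simp) ENNReal.ofReal_lt_top) hfin
  rw [shi_zero] at h2
  by_contra hcon
  rw [not_lt, top_le_iff] at hcon
  rw [hcon] at h2
  rw [ENNReal.mul_top] at h2
  · exact lt_irrefl _ h2
  · apply mul_ne_zero (by norm_num)
    rw [Ne, ENNReal.ofReal_eq_zero, not_le]
    exact Real.exp_pos _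

/-- **subexponential growth** -/
theorem om_subexp (c : ℝ) (hc : 0 < c) : ∀ᶠ n : ℕ in Filter.atTop,
    (ballO om n : ℝ) ≤ Real.exp (c * n) := by
  have hZ := ZO_om_fin (c / 2) (by positivity)
  set Z := (ZO om (al om 0) (c / 2)).toReal with hZd
  have hb : ∀ n : ℕ, (ballO om n : ℝ) ≤ Real.exp (c / 2 * n) * Z := by
    intro n
    have h1 := F_ball om n (c / 2) (by positivity)
    rw [← ENNReal.ofReal_toReal hZ.ne, ← ENNReal.ofReal_mul (Real.exp_pos _).le,
      ← ENNReal.ofReal_natCast] at h1
    exact (ENNReal.ofReal_le_ofReal_iff (by positivity)).1 h1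
  have hlim : Filter.Tendsto (fun n : ℕ => Real.exp (c / 2 * n)) Filter.atTop Filter.atTop :=
    Real.tendsto_exp_atTop.comp
      (Filter.Tendsto.const_mul_atTop (by positivity) tendsto_natCast_atTop_atTop)
  filter_upwards [hlim.eventually_ge_atTop Z] with n hn
  refine (hb n).trans ?_
  calc Real.exp (c / 2 * n) * Z ≤ Real.exp (c / 2 * n) * Real.exp (c / 2 * n) := by gcongr
    _ = Real.exp (c * n) := by
      rw [← Real.exp_add]
      congr 1
      ring

end Pool.Agent.TH994.TM
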